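import Pool.Agent.Helper65.KPV.St

/-!
# Project KP, module VDVR: a discrete valuation ring by hand
-/

set_option autoImplicit false

namespace Pool.Agent.Helper10.KPV

open Pool.Agent.Helper65.KPV Pool.Agent.Helper5.KPA Pool.Agent.Helper52.KP

section

variable {S : Type} [CommRing S] [Algebra ℂ S] {B : Subalgebra ℂ S} {ξ : S}

/-- `h` is in `B` but not in `q(ξ)`. -/
def Nq (B : Subalgebra ℂ S) (ξ h : S) : Prop := h ∈ B ∧ h * ξ ∉ B

theorem nq_mul (px : PX B ξ) {h h' : S} (h1 : Nq B ξ h) (h2 : Nq B ξ h') : Nq B ξ (h * h') := by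
  refine ⟨B.mul_mem h1.1 h2.1, fun h3 => ?_⟩
  rcases px.prime h h1.1 h' h2.1 h3 with h4 | h4
  · exact h1.2 h4
  · exact h2.2 h4

theorem nq_one (px : PX B ξ) : Nq B ξ 1 := ⟨B.one_mem, by rw [one_mul]; exact px.nB⟩

theorem nq_pow (px : PX B ξ) {h : S} (h1 : Nq B ξ h) (n : ℕ) : Nq B ξ (h ^ n) := by
  induction n with
  | zero =>
    rw [pow_zero]
    exact nq_one px
  | succ n ih =>
    rw [pow_succ]
    exact nq_mul px ih h1

theorem nq_ne {h : S} (h1 : Nq B ξ h) : h ≠ 0 := by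
  rintro rfl
  exact h1.2 (by rw [zero_mul]; exact B.zero_mem)

theorem xi_ne (px : PX B ξ) : ξ ≠ 0 := by
  rintro rfl
  exact px.nB B.zero_mem

theorem fg_of_le (nb : NB B) (N : Submodule B S) (h : ∀ x ∈ N, x ∈ B) : N.FG := by
  have hn := nb.noeth
  have h1 : N ≤ LinearMap.range (Algebra.linearMap B S) := by
    intro x hx
    exact ⟨⟨x, h x hx⟩, rfl⟩
  rw [← Submodule.map_comap_eq_of_le h1]
  exact (IsNoetherian.noetherian (N.comap (Algebra.linearMap B S))).map _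

variable [IsDomain S]

theorem key_int (nb : NB B) (px : PX B ξ) (N : Submodule B S) (hB : ∀ x ∈ N, x ∈ B)
    (hne : ∃ x ∈ N, x ≠ 0) (hst : ∀ x ∈ N, x * ξ ∈ N) : False := by
  have h1 : IsIntegral B ξ := by
    refine isIntegral_of_smul_mem_submodule N ?_ (fg_of_le nb N hB) ξ ?_
    · rw [Submodule.ne_bot_iff]
      exact hne
    · intro x hx
      rw [smul_eq_mul, mul_comm]
      exact hst x hx
  exact px.nB (nb.ic ξ px.qB h1)

/-- (1) -/
theorem exists_unif (nb : NB B) (px : PX B ξ) : ∃ y ∈ B, Nq B ξ (y * ξ) := by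
  by_contra hcon
  push Not at hcon
  obtain ⟨s, hs, hs0, hsx⟩ := px.qB
  refine key_int nb px
    { carrier := {x | x ∈ B ∧ x * ξ ∈ B}
      add_mem' := fun h1 h2 => ⟨B.add_mem h1.1 h2.1, by rw [add_mul]; exact B.add_mem h1.2 h2.2⟩
      zero_mem' := ⟨B.zero_mem, by rw [zero_mul]; exact B.zero_mem⟩
      smul_mem' := fun c x h1 => by
        have e : c • x = (c : S) * x := rfl
        rw [e]
        exact ⟨B.mul_mem c.2 h1.1, by rw [mul_assoc]; exact B.mul_mem c.2 h1.2⟩ }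
    (fun x hx => hx.1) ⟨s, ⟨hs, hsx⟩, hs0⟩ ?_
  intro x hx
  refine ⟨hx.2, ?_⟩
  by_contra h1
  exact hcon x hx.1 ⟨hx.2, h1⟩

/-- (2) -/
theorem nq_pow_notMem (nb : NB B) (px : PX B ξ) {h : S} (h1 : Nq B ξ h) (e : ℕ) (he : 1 ≤ e) :
    h * ξ ^ e ∉ B := by
  intro h2
  have h3 : (h * ξ) ^ e ∈ B := by
    have e1 : (h * ξ) ^ e = h ^ (e - 1) * (h * ξ ^ e) := by
      rw [mul_pow, ← mul_assoc, ← pow_succ, Nat.sub_add_cancel he]
    rw [e1]
    exact B.mul_mem (B.pow_mem h1.1 _) h2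
  have h4 : IsIntegral B ((h * ξ) ^ e) := by
    have := isIntegral_algebraMap (R := B) (A := S) (x := ⟨(h * ξ) ^ e, h3⟩)
    exact this
  have h5 : IsIntegral B (h * ξ) := IsIntegral.of_pow (by omega) h4
  obtain ⟨s, hs, hs0, hsx⟩ := px.qB
  refine h1.2 (nb.ic _ ⟨s, hs, hs0, ?_⟩ h5)
  have e2 : s * (h * ξ) = h * (s * ξ) := by ring
  rw [e2]
  exact B.mul_mem h1.1 hsx

theorem exp_le (nb : NB B) (px : PX B ξ) {h h' : S} (h1 : Nq B ξ h) (h2 : h' ∈ B) (a b : ℕ)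
    (e : h * ξ ^ a = h' * ξ ^ b) : a ≤ b := by
  by_contra hc
  push Not at hc
  have h3 : h * ξ ^ (a - b) = h' := by
    have h4 : (h * ξ ^ (a - b)) * ξ ^ b = h' * ξ ^ b := by
      rw [mul_assoc, ← pow_add, Nat.sub_add_cancel hc.le, e]
    exact mul_right_cancel₀ (pow_ne_zero _ (xi_ne px)) h4
  exact nq_pow_notMem nb px h1 (a - b) (by omega) (by rw [h3]; exact h2)

/-- (3) -/
theorem exists_level (nb : NB B) (px : PX B ξ) (x : S) (hx : x ∈ B) (hx0 : x ≠ 0) :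
    ∃ j : ℕ, (∀ i ≤ j, x * ξ ^ i ∈ B) ∧ x * ξ ^ (j + 1) ∉ B := by
  have hex : ∃ i, x * ξ ^ i ∉ B := by
    by_contra hcon
    push Not at hcon
    refine key_int nb px
      { carrier := {s | ∀ i, s * ξ ^ i ∈ B}
        add_mem' := fun h1 h2 i => by rw [add_mul]; exact B.add_mem (h1 i) (h2 i)
        zero_mem' := fun i => by rw [zero_mul]; exact B.zero_mem
        smul_mem' := fun c x h1 i => by
          have e : c • x = (c : S) * x := rfl
          rw [e, mul_assoc]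
          exact B.mul_mem c.2 (h1 i) }
      (fun s hs => by
        have := hs 0
        rwa [pow_zero, mul_one] at this) ⟨x, hcon, hx0⟩ ?_
    intro s hs i
    rw [mul_assoc, ← pow_succ']
    exact hs (i + 1)
  classical
  have h1 := Nat.find_spec hex
  have h2 : Nat.find hex ≠ 0 := by
    intro h3
    rw [h3, pow_zero, mul_one] at h1
    exact h1 hx
  refine ⟨Nat.find hex - 1, fun i hi => ?_, ?_⟩
  · by_contra h3
    have h4 := Nat.find_min' hex h3
    omega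
  · rw [Nat.sub_add_cancel (by omega)]
    exact h1

/-- (4) -/
def Rv (B : Subalgebra ℂ S) (ξ x : S) (j : ℤ) : Prop :=
  ∃ (a b : ℕ) (h h' : S), Nq B ξ h ∧ Nq B ξ h' ∧ j = a - b ∧ h * x * ξ ^ a = h' * ξ ^ b

theorem rv_unique (nb : NB B) (px : PX B ξ) {x : S} (hx : x ≠ 0) {j j' : ℤ}
    (h1 : Rv B ξ x j) (h2 : Rv B ξ x j') : j = j' := by
  obtain ⟨a, b, h, h', hh, hh', hj, e⟩ := h1
  obtain ⟨a', b', g, g', hg, hg', hj', e'⟩ := h2
  have e1 : h * g' * ξ ^ (a + b') = h' * g * ξ ^ (b + a') := by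
    refine mul_left_cancel₀ hx ?_
    calc x * (h * g' * ξ ^ (a + b')) = (h * x * ξ ^ a) * (g' * ξ ^ b') := by ring
      _ = (h' * ξ ^ b) * (g * x * ξ ^ a') := by rw [e, e']
      _ = x * (h' * g * ξ ^ (b + a')) := by ring
  have h3 := exp_le nb px (nq_mul px hh hg') (B.mul_mem hh'.1 hg.1) _ _ e1
  have h4 := exp_le nb px (nq_mul px hh' hg) (B.mul_mem hh.1 hg'.1) _ _ e1.symm
  omega

theorem rv_mem (nb : NB B) (px : PX B ξ) (x : S) (hx : x ∈ B) (hx0 : x ≠ 0) :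
    ∃ j : ℕ, (∀ i ≤ j, x * ξ ^ i ∈ B) ∧ x * ξ ^ (j + 1) ∉ B ∧ Nq B ξ (x * ξ ^ j) ∧
      Rv B ξ x j := by
  obtain ⟨j, h1, h2⟩ := exists_level nb px x hx hx0
  have h3 : Nq B ξ (x * ξ ^ j) := ⟨h1 j le_rfl, by rw [mul_assoc, ← pow_succ]; exact h2⟩
  exact ⟨j, h1, h2, h3, j, 0, 1, x * ξ ^ j, nq_one px, h3, by simp, by simp⟩

theorem rv_exists (nb : NB B) (px : PX B ξ) (x : S) (hx : x ≠ 0) (hq : QB B x) :
    ∃ j, Rv B ξ x j := by
  obtain ⟨s, hs, hs0, hsx⟩ := hq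
  obtain ⟨i, -, -, h3, -⟩ := rv_mem nb px s hs hs0
  obtain ⟨j, -, -, h4, -⟩ := rv_mem nb px (s * x) hsx (mul_ne_zero hs0 hx)
  exact ⟨_, j, i, s * ξ ^ i, s * x * ξ ^ j, h3, h4, rfl, by ring⟩

theorem rv_mul (px : PX B ξ) {x y : S} {j j' : ℤ} (h1 : Rv B ξ x j) (h2 : Rv B ξ y j') :
    Rv B ξ (x * y) (j + j') := by
  obtain ⟨a, b, h, h', hh, hh', hj, e⟩ := h1
  obtain ⟨a', b', g, g', hg, hg', hj', e'⟩ := h2
  refine ⟨a + a', b + b', h * g, h' * g', nq_mul px hh hg, nq_mul px hh' hg', ?_, ?_⟩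
  · rw [hj, hj']
    push_cast
    ring
  · calc h * g * (x * y) * ξ ^ (a + a') = (h * x * ξ ^ a) * (g * y * ξ ^ a') := by ring
      _ = (h' * ξ ^ b) * (g' * ξ ^ b') := by rw [e, e']
      _ = _ := by ring

open Classical in
/-- The valuation. -/
noncomputable def vl (B : Subalgebra ℂ S) (ξ x : S) : ℤ :=
  if h : ∃ j, Rv B ξ x j then h.choose else 0

theorem vl_eq (nb : NB B) (px : PX B ξ) {x : S} (hx : x ≠ 0) {j : ℤ} (h : Rv B ξ x j) :
    vl B ξ x = j := by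
  have h1 : ∃ j, Rv B ξ x j := ⟨j, h⟩
  unfold vl
  rw [dif_pos h1]
  exact rv_unique nb px hx h1.choose_spec h

theorem rv_vl (nb : NB B) (px : PX B ξ) {x : S} (hx : x ≠ 0) (hq : QB B x) :
    Rv B ξ x (vl B ξ x) := by
  have h1 := rv_exists nb px x hx hq
  unfold vl
  rw [dif_pos h1]
  exact h1.choose_spec

theorem yxi_mem {y : S} (hy : y ∈ B) (hu : y * ξ ∈ B) (e M : ℕ) (h : e ≤ M) :
    y ^ M * ξ ^ e ∈ B := by
  have e1 : y ^ M * ξ ^ e = (y * ξ) ^ e * y ^ (M - e) := by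
    rw [mul_pow]
    have e2 : y ^ M = y ^ e * y ^ (M - e) := by rw [← pow_add, Nat.add_sub_cancel' h]
    rw [e2]
    ring
  rw [e1]
  exact B.mul_mem (B.pow_mem hu _) (B.pow_mem hy _)

theorem dvr (nb : NB B) (px : PX B ξ) : PV B ξ (vl B ξ) := by
  obtain ⟨y, hy, hu⟩ := exists_unif nb px
  have hy0 : y ≠ 0 := by
    rintro rfl
    rw [zero_mul] at hu
    exact nq_ne hu rfl
  constructor
  · exact px
  · intro x x' hx hx' hq hq'
    exact vl_eq nb px (mul_ne_zero hx hx') (rv_mul px (rv_vl nb px hx hq) (rv_vl nb px hx' hq'))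
  · intro x x' hx hx' hz hq hq'
    have hqz : QB B (x + x') := by
      obtain ⟨s, hs, hs0, hsx⟩ := hq
      obtain ⟨t, ht, ht0, htx⟩ := hq'
      refine ⟨s * t, B.mul_mem hs ht, mul_ne_zero hs0 ht0, ?_⟩
      have e : s * t * (x + x') = t * (s * x) + s * (t * x') := by ring
      rw [e]
      exact B.add_mem (B.mul_mem ht hsx) (B.mul_mem hs htx)
    obtain ⟨a, b, h, h', hh, hh', hj, e⟩ := rv_vl nb px hx hq
    obtain ⟨a', b', k, k', hk, hk', hj', e'⟩ := rv_vl nb px hx' hq'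
    obtain ⟨a'', b'', g, g', hg, hg', hj'', e''⟩ := rv_vl nb px hz hqz
    by_contra hcon
    push Not at hcon
    have h1 := (lt_min_iff.mp hcon).1
    have h2 := (lt_min_iff.mp hcon).2
    rw [hj, hj''] at h1
    rw [hj', hj''] at h2
    have e1 : g' * h * k * ξ ^ (b'' + a + a') =
        g * k * h' * ξ ^ (b + a' + a'') + g * h * k' * ξ ^ (b' + a + a'') := by
      calc g' * h * k * ξ ^ (b'' + a + a') = (g' * ξ ^ b'') * (h * k * ξ ^ (a + a')) := by ring
        _ = (g * (x + x') * ξ ^ a'') * (h * k * ξ ^ (a + a')) := by rw [e'']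
        _ = (h * x * ξ ^ a) * (g * k * ξ ^ (a' + a'')) +
            (k * x' * ξ ^ a') * (g * h * ξ ^ (a + a'')) := by ring
        _ = _ := by
            rw [e, e']
            ring
    set E := b'' + a + a' with hE
    set e₁ := b + a' + a'' with he₁
    set e₂ := b' + a + a'' with he₂
    have hlt1 : e₁ < E := by omega
    have hlt2 : e₂ < E := by omega
    set M := max e₁ e₂ with hM
    have hM1 : M < E := max_lt hlt1 hlt2
    have h3 : g' * h * k * (y * ξ) ^ M * ξ ^ (E - M) ∈ B := by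
      have e2 : g' * h * k * (y * ξ) ^ M * ξ ^ (E - M) =
          g * k * h' * (y ^ M * ξ ^ e₁) + g * h * k' * (y ^ M * ξ ^ e₂) := by
        have e3 : ξ ^ E = ξ ^ M * ξ ^ (E - M) := by rw [← pow_add, Nat.add_sub_cancel' hM1.le]
        calc g' * h * k * (y * ξ) ^ M * ξ ^ (E - M)
            = y ^ M * (g' * h * k * (ξ ^ M * ξ ^ (E - M))) := by ring
          _ = y ^ M * (g * k * h' * ξ ^ e₁ + g * h * k' * ξ ^ e₂) := by rw [← e3, e1]
          _ = _ := by ring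
      rw [e2]
      exact B.add_mem
        (B.mul_mem (B.mul_mem (B.mul_mem hg.1 hk.1) hh'.1) (yxi_mem hy hu.1 _ _ (le_max_left _ _)))
        (B.mul_mem (B.mul_mem (B.mul_mem hg.1 hh.1) hk'.1) (yxi_mem hy hu.1 _ _ (le_max_right _ _)))
    exact nq_pow_notMem nb px (nq_mul px (nq_mul px (nq_mul px hg' hh) hk) (nq_pow px hu M)) _
      (by omega) h3
  · intro x hx hx0
    obtain ⟨j, -, -, -, h⟩ := rv_mem nb px x hx hx0
    rw [vl_eq nb px hx0 h]
    positivity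
  · intro x hx hx0
    obtain ⟨j, h1, h2, -, h⟩ := rv_mem nb px x hx hx0
    rw [vl_eq nb px hx0 h]
    constructor
    · intro h3
      have h4 := h1 1 (by exact_mod_cast h3)
      rwa [pow_one] at h4
    · intro h3
      have h4 : j ≠ 0 := by
        rintro rfl
        rw [zero_add, pow_one] at h2
        exact h2 h3
      have : 1 ≤ j := by omega
      exact_mod_cast this
  · intro x hx hq hv
    obtain ⟨a, b, h, h', hh, hh', hj, e⟩ := rv_vl nb px hx hq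
    have hab : b ≤ a := by omega
    have e1 : h * x * ξ ^ (a - b) = h' := by
      have e2 : (h * x * ξ ^ (a - b)) * ξ ^ b = h' * ξ ^ b := by
        rw [mul_assoc, ← pow_add, Nat.sub_add_cancel hab, e]
      exact mul_right_cancel₀ (pow_ne_zero _ (xi_ne px)) e2
    have h1 := nq_mul px hh (nq_pow px hu (a - b))
    refine ⟨h * (y * ξ) ^ (a - b), h1.1, h1.2, ?_⟩
    have e2 : h * (y * ξ) ^ (a - b) * x = h' * y ^ (a - b) := by
      rw [← e1, mul_pow]
      ring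
    rw [e2]
    exact B.mul_mem hh'.1 (B.pow_mem hy _)
  · refine vl_eq nb px (xi_ne px) ⟨0, 1, 1, 1, nq_one px, nq_one px, by simp, by simp⟩
  · exact ⟨y, hy, hy0, vl_eq nb px hy0 ⟨1, 0, 1, y * ξ, nq_one px, hu, by simp, by simp⟩⟩

end

theorem hDVR : StDVR := by
  intro S _ _ _ B ξ nb px
  exact ⟨vl B ξ, dvr nb px⟩

end Pool.Agent.Helper10.KPV
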